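import Mathlib
import Pool.Agent.Work.MP_1354f0_pr.Defs
import Pool.Agent.Work.MP_1354f0_pr.Main2
import Pool.Agent.Work.MP_1354f0_pr.Exists

/-!
# Fluctuations of branching internal DLA in dimension three and higher

All definitions are in `Pool/Agent/Work/MP_1354f0_pr/Defs.lean` (and `Basic.lean`: `Site`, `Dir`,
`vec`, `toE`).
-/

set_option autoImplicit false

open MeasureTheory Filter

namespace Pool.Agent.Results.MP_1354f0_pr.FluctuationExponents

open BIDLA

/-- Let `d ≥ 3` and let `ν` satisfy (H). Branching internal DLA exists, and for every version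
of it:

* for `d = 3` both deviations have exponent `1/2`: almost surely `δ^I(t) ≤ C √(r(t) log r(t))`
  eventually, `δ^I(t), δ^O(t) ≤ r(t)^(1/2+ε)` eventually for every `ε > 0`, while for every `K`
  each of `δ^I(t) ≥ K √r(t)` and `δ^O(t) ≥ K √r(t)` holds infinitely often; moreover both events
  have probability bounded below for large `t`, and `√r(t) / max(δ^I(t), δ^O(t))` is tight;
* for `d ≥ 4` there are no polynomial fluctuations: almost surely `δ^I(t) ≤ C log r(t)` eventually
  and `δ^O(t) ≤ r(t)^ε` eventually for every `ε > 0`. -/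
theorem result (d : ℕ) (hd : 3 ≤ d) (ν : PMF ℕ) (H : HypH ν) :
    (∃ (Ω : Type) (_ : MeasurableSpace Ω) (P : Measure Ω) (_ : IsProbabilityMeasure P)
      (X : Process d ν P), X.Uniform) ∧
    ∀ {Ω : Type*} [MeasurableSpace Ω] (P : Measure Ω) [IsProbabilityMeasure P]
      (X : Process d ν P),
    (d = 3 →
      (∃ C : ℝ, ∀ᵐ ω ∂P, ∀ᶠ t : ℕ in atTop,
        devIn (radius d t) (X.A t ω) ≤ C * √(radius d t * Real.log (radius d t))) ∧
      (∀ ε : ℝ, 0 < ε → ∀ᵐ ω ∂P, ∀ᶠ t : ℕ in atTop,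
        devIn (radius d t) (X.A t ω) ≤ radius d t ^ (1 / 2 + ε) ∧
        devOut (radius d t) (X.A t ω) ≤ radius d t ^ (1 / 2 + ε)) ∧
      (∀ K : ℝ, ∀ᵐ ω ∂P,
        (∃ᶠ t : ℕ in atTop, K * √(radius d t) ≤ devIn (radius d t) (X.A t ω)) ∧
        (∃ᶠ t : ℕ in atTop, K * √(radius d t) ≤ devOut (radius d t) (X.A t ω))) ∧
      (∀ K : ℝ, ∃ c : ℝ, 0 < c ∧ ∀ᶠ t : ℕ in atTop,
        ENNReal.ofReal c ≤ P {ω | K * √(radius d t) ≤ devIn (radius d t) (X.A t ω)} ∧
        ENNReal.ofReal c ≤ P {ω | K * √(radius d t) ≤ devOut (radius d t) (X.A t ω)}) ∧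
      (∀ η : ℝ, 0 < η → ∃ κ : ℝ, 0 < κ ∧ ∀ᶠ t : ℕ in atTop,
        P {ω | max (devIn (radius d t) (X.A t ω)) (devOut (radius d t) (X.A t ω))
          < κ * √(radius d t)} ≤ ENNReal.ofReal η)) ∧
    (4 ≤ d →
      (∃ C : ℝ, ∀ᵐ ω ∂P, ∀ᶠ t : ℕ in atTop,
        devIn (radius d t) (X.A t ω) ≤ C * Real.log (radius d t)) ∧
      (∀ ε : ℝ, 0 < ε → ∀ᵐ ω ∂P, ∀ᶠ t : ℕ in atTop,
        devOut (radius d t) (X.A t ω) ≤ radius d t ^ ε)) := by
  refine ⟨exists_uniform ν (by omega), ?_⟩
  intro Ω _ P _ X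
  have hd1 : 1 ≤ d := by omega
  have OF : OuterFun d := outer_fun d hd
  obtain ⟨K, hK, hin⟩ := X.devIn_upper (P := P) H hd
  constructor
  · intro h3
    subst h3
    have ha2 : a2 3 = 1 := by unfold a2; rw [if_pos rfl]
    have hg : ∀ r, gI 3 r = √(r * Real.log r) := fun r => by unfold gI; rw [if_pos rfl]
    have hOB : X.OB P (a2 3 / 2 + 1 / 8) := X.outer_as (P := P) H hd OF (by norm_num)
    refine ⟨⟨K, ?_⟩, ?_, ?_, ?_, ?_⟩
    · filter_upwards [hin] with ω h1
      filter_upwards [h1] with t h2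
      rwa [hg] at h2
    · intro ε hε
      have h1 := X.devOut_upper (P := P) H hd OF hε
      have h2 := ev_gI 3 (s := ε / 2) (by positivity)
      have h3 := ev_pow (a := a2 3 / 2 + ε / 2) (b := 1 / 2 + ε) (by rw [ha2]; linarith) K
      filter_upwards [hin, h1] with ω g1 g2
      filter_upwards [g1, g2, (tendsto_radius hd1).eventually h2,
        (tendsto_radius hd1).eventually h3] with t k1 k2 k3 k4
      refine ⟨k1.trans ((mul_le_mul_of_nonneg_left k3 hK.le).trans k4), ?_⟩
      rwa [ha2] at k2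
    · intro K'
      filter_upwards [Process.devIn_lower X H K',
        Process.devOut_lower X H (α := a2 3 / 2 + 1 / 8) (by rw [ha2]; norm_num) hOB K'] with ω h1 h2
      exact ⟨h1, h2⟩
    · exact fun K' => Process.devs_prob X H hOB K'
    · exact fun η hη => Process.devs_max X H hOB hη
  · intro h4
    have ha2 : a2 d = 0 := by unfold a2; rw [if_neg (by omega)]
    have hg : ∀ r, gI d r = Real.log r := fun r => by unfold gI; rw [if_neg (by omega)]
    refine ⟨⟨K, ?_⟩, ?_⟩
    · filter_upwards [hin] with ω h1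
      filter_upwards [h1] with t h2
      rwa [hg] at h2
    · intro ε hε
      have h1 := X.devOut_upper (P := P) H hd OF hε
      filter_upwards [h1] with ω g1
      filter_upwards [g1] with t g2
      rwa [ha2, zero_div, zero_add] at g2

end Pool.Agent.Results.MP_1354f0_pr.FluctuationExponents
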